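import Pool.Agent.H628R4.TP.Defs

set_option autoImplicit false
set_option linter.unusedSectionVars false

/-! # `-1` is a root of the Bernstein-Sato polynomial (also of the local one) -/

namespace Pool.Agent.W574.HS

open MvPolynomial

variable {σ : Type}

theorem exists_deriv_coeff (i : σ) (p : Polynomial (MvPolynomial σ ℂ)) :
    ∃ p' : Polynomial (MvPolynomial σ ℂ), ∀ n : ℕ,
      pderiv i (p.eval (n : MvPolynomial σ ℂ)) = p'.eval (n : MvPolynomial σ ℂ) := by
  induction p using Polynomial.induction_on' with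
  | add p q hp hq =>
    obtain ⟨p', hp⟩ := hp
    obtain ⟨q', hq⟩ := hq
    exact ⟨p' + q', fun n => by rw [Polynomial.eval_add, map_add, hp, hq, Polynomial.eval_add]⟩
  | monomial m a =>
    refine ⟨Polynomial.monomial m (pderiv i a), fun n => ?_⟩
    rw [Polynomial.eval_monomial, Polynomial.eval_monomial, ← Nat.cast_pow, mul_comm, mul_comm _
      (((n ^ m : ℕ)) : MvPolynomial σ ℂ), ← nsmul_eq_mul, ← nsmul_eq_mul]
    exact map_nsmul (pderiv i) _ _

/-- the sequences `g n = r(n) F ^ (n - k)` -/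
def Seq (F : MvPolynomial σ ℂ) (g : ℕ → MvPolynomial σ ℂ) : Prop :=
  ∃ (k : ℕ) (r : Polynomial (MvPolynomial σ ℂ)),
    ∀ n : ℕ, F ^ k * g n = r.eval (n : MvPolynomial σ ℂ) * F ^ n

theorem act_pow (F : MvPolynomial σ ℂ) (Q : Module.End ℂ (MvPolynomial σ ℂ))
    (hQ : Q ∈ Pool.Agent.H628R4.TP.weylS σ) :
    ∀ g : ℕ → MvPolynomial σ ℂ, Seq F g → Seq F fun n => Q (g n) := by
  classical
  induction hQ using Algebra.adjoin_induction with
  | mem Q hQ =>
    intro g hg
    obtain ⟨k, r, hr⟩ := hg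
    rcases hQ with ⟨i, rfl⟩ | ⟨i, rfl⟩
    · refine ⟨k, Polynomial.C (X i) * r, fun n => ?_⟩
      change F ^ k * (X i * g n) = _
      rw [Polynomial.eval_mul, Polynomial.eval_C]
      linear_combination X i * hr n
    · obtain ⟨p', hp'⟩ := exists_deriv_coeff i r
      refine ⟨k + 1, Polynomial.C F * p' + Polynomial.X * r * Polynomial.C (pderiv i F) -
        Polynomial.C ((k : MvPolynomial σ ℂ) * pderiv i F) * r, fun n => ?_⟩
      have h1 := congrArg (pderiv i) (hr n)
      rw [Derivation.leibniz, Derivation.leibniz, Derivation.leibniz_pow, Derivation.leibniz_pow,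
        smul_eq_mul, smul_eq_mul, hp', smul_eq_mul, smul_eq_mul, smul_eq_mul, smul_eq_mul,
        nsmul_eq_mul, nsmul_eq_mul] at h1
      have h2 : ∀ m : ℕ, F * ((m : MvPolynomial σ ℂ) * F ^ (m - 1)) = m * F ^ m := by
        intro m
        rcases m with _ | m
        · simp
        · rw [Nat.add_sub_cancel, pow_succ]; ring
      change F ^ (k + 1) * pderiv i (g n) = _
      rw [Polynomial.eval_sub, Polynomial.eval_add, Polynomial.eval_mul, Polynomial.eval_mul,
        Polynomial.eval_mul, Polynomial.eval_mul, Polynomial.eval_C, Polynomial.eval_C,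
        Polynomial.eval_C, Polynomial.eval_X, pow_succ]
      linear_combination F * h1 + (r.eval (n : MvPolynomial σ ℂ) * pderiv i F) * h2 n -
        g n * pderiv i F * h2 k - (k : MvPolynomial σ ℂ) * pderiv i F * hr n
  | algebraMap c =>
    intro g hg
    obtain ⟨k, r, hr⟩ := hg
    refine ⟨k, Polynomial.C (C c) * r, fun n => ?_⟩
    change F ^ k * (c • g n) = _
    rw [Polynomial.eval_mul, Polynomial.eval_C, ← C_mul']
    linear_combination C c * hr n
  | add Q1 Q2 _ _ h1 h2 =>
    intro g hg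
    obtain ⟨k1, r1, h1⟩ := h1 g hg
    obtain ⟨k2, r2, h2⟩ := h2 g hg
    refine ⟨k1 + k2, Polynomial.C (F ^ k2) * r1 + Polynomial.C (F ^ k1) * r2, fun n => ?_⟩
    change F ^ (k1 + k2) * (Q1 (g n) + Q2 (g n)) = _
    rw [Polynomial.eval_add, Polynomial.eval_mul, Polynomial.eval_mul,
      Polynomial.eval_C, Polynomial.eval_C, pow_add]
    linear_combination F ^ k2 * h1 n + F ^ k1 * h2 n
  | mul Q1 Q2 _ _ h1 h2 =>
    intro g hg
    exact h1 _ (h2 g hg)

theorem eval_zero_of (F : MvPolynomial σ ℂ) (p : Polynomial (MvPolynomial σ ℂ))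
    (h : ∀ n : ℕ, p.eval ((n : MvPolynomial σ ℂ) + 1) = 0) : p.eval 0 = 0 := by
  have hp : p = 0 := by
    apply Polynomial.eq_zero_of_infinite_isRoot
    refine Set.Infinite.mono ?_ (Set.infinite_range_of_injective
      (f := fun n : ℕ => ((n + 1 : ℕ) : MvPolynomial σ ℂ)) ?_)
    · rintro _ ⟨n, rfl⟩
      have := h n
      simpa [Polynomial.IsRoot] using this
    · intro a b hab
      have := Nat.cast_injective hab
      omega
  rw [hp, Polynomial.eval_zero]

/-- **`-1` is a root** of every polynomial `b` such that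
`H b(s) F ^ s = P(s) F ^ (s + 1)`, if `F` does not divide a power of `H` -/
theorem minus_one (F H : MvPolynomial σ ℂ) (hF0 : F ≠ 0) (hF : ¬ F ∣ H) (b : Polynomial ℂ)
    (P : ℕ →₀ Pool.Agent.H628R4.TP.weylS σ) (hP : ∀ s : ℕ, H * (C (b.eval (s : ℂ)) * F ^ s) =
    P.sum fun m Q => ((s : ℂ) ^ m) • (Q : Module.End ℂ (MvPolynomial σ ℂ)) (F ^ (s + 1))) :
    b.eval (-1) = 0 := by
  classical
  have h1 : ∀ m : ℕ, Seq F fun n => (P m : Module.End ℂ (MvPolynomial σ ℂ)) (F ^ n) := fun m =>
    act_pow F (P m).1 (P m).2 _ ⟨0, 1, fun n => by simp⟩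
  choose k r hr using h1
  -- clear the denominators
  set K := ∑ m ∈ P.support, k m with hK
  have hkK : ∀ m ∈ P.support, k m ≤ K := fun m hm =>
    Finset.single_le_sum (f := k) (fun _ _ => Nat.zero_le _) hm
  set G : Polynomial (MvPolynomial σ ℂ) :=
    Polynomial.C (F ^ K * H) * ((b.map C).comp (Polynomial.X - 1)) -
      Polynomial.C F * ∑ m ∈ P.support, (Polynomial.X - 1) ^ m * (Polynomial.C (F ^ (K - k m)) * r m)
    with hG
  have hbe : ∀ c : ℂ, (b.map (C : ℂ →+* MvPolynomial σ ℂ)).eval (C c) = C (b.eval c) := by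
    intro c
    rw [Polynomial.eval_map, Polynomial.eval₂_at_apply]
  have h2 : ∀ n : ℕ, G.eval ((n : MvPolynomial σ ℂ) + 1) = 0 := by
    intro n
    have h3 : F ^ n * G.eval ((n : MvPolynomial σ ℂ) + 1) = 0 := by
      rw [hG, Polynomial.eval_sub, Polynomial.eval_mul, Polynomial.eval_mul, Polynomial.eval_C,
        Polynomial.eval_C, Polynomial.eval_comp, Polynomial.eval_sub, Polynomial.eval_X,
        Polynomial.eval_one, add_sub_cancel_right, Polynomial.eval_finsetSum]
      have h4 : ((n : ℕ) : MvPolynomial σ ℂ) = C (n : ℂ) := by simp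
      have h5 : (b.map (C : ℂ →+* MvPolynomial σ ℂ)).eval (n : MvPolynomial σ ℂ) =
          C (b.eval (n : ℂ)) := by rw [h4, hbe]
      rw [h5]
      have h6 : F ^ K * (H * (C (b.eval (n : ℂ)) * F ^ n)) = ∑ m ∈ P.support,
          F ^ (n + 1) * ((n : MvPolynomial σ ℂ) ^ m * (F ^ (K - k m) *
            (r m).eval ((n : MvPolynomial σ ℂ) + 1))) := by
        rw [hP n, Finsupp.sum, Finset.mul_sum]
        refine Finset.sum_congr rfl fun m hm => ?_
        have h7 : F ^ k m * (P m : Module.End ℂ (MvPolynomial σ ℂ)) (F ^ (n + 1)) =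
          (r m).eval ((n + 1 : ℕ) : MvPolynomial σ ℂ) * F ^ (n + 1) := hr m (n + 1)
        push_cast at h7
        have h8 : F ^ K = F ^ (K - k m) * F ^ k m := by
          rw [← pow_add, Nat.sub_add_cancel (hkK m hm)]
        rw [← C_mul', C_pow, ← h4, h8]
        linear_combination F ^ (K - k m) * (n : MvPolynomial σ ℂ) ^ m * h7
      have h9 : ∑ m ∈ P.support, Polynomial.eval ((n : MvPolynomial σ ℂ) + 1)
          ((Polynomial.X - 1) ^ m * (Polynomial.C (F ^ (K - k m)) * r m)) =
          ∑ m ∈ P.support, ((n : MvPolynomial σ ℂ) ^ m * (F ^ (K - k m) *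
            (r m).eval ((n : MvPolynomial σ ℂ) + 1))) := by
        refine Finset.sum_congr rfl fun m _ => ?_
        rw [Polynomial.eval_mul, Polynomial.eval_mul, Polynomial.eval_pow, Polynomial.eval_sub,
          Polynomial.eval_X, Polynomial.eval_one, add_sub_cancel_right, Polynomial.eval_C]
      rw [h9]
      rw [← Finset.mul_sum] at h6
      linear_combination h6
    exact (mul_eq_zero.1 h3).resolve_left (pow_ne_zero n hF0)
  have h10 := eval_zero_of F G h2
  rw [hG, Polynomial.eval_sub, Polynomial.eval_mul, Polynomial.eval_mul, Polynomial.eval_C,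
    Polynomial.eval_C, Polynomial.eval_comp, Polynomial.eval_sub, Polynomial.eval_X,
    Polynomial.eval_one, Polynomial.eval_finsetSum, zero_sub] at h10
  have h11 : (b.map (C : ℂ →+* MvPolynomial σ ℂ)).eval (-1) = C (b.eval (-1)) := by
    have : (-1 : MvPolynomial σ ℂ) = C (-1) := by simp
    rw [this, hbe]
  have h12 : ∀ m ∈ P.support, Polynomial.eval (0 : MvPolynomial σ ℂ)
      ((Polynomial.X - 1) ^ m * (Polynomial.C (F ^ (K - k m)) * r m)) =
      F ^ K * ((-1) ^ m * (P m : Module.End ℂ (MvPolynomial σ ℂ)) 1) := by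
    intro m hm
    have h7 : F ^ k m * (P m : Module.End ℂ (MvPolynomial σ ℂ)) (F ^ 0) =
          (r m).eval ((0 : ℕ) : MvPolynomial σ ℂ) * F ^ 0 := hr m 0
    rw [Nat.cast_zero, pow_zero, mul_one] at h7
    have h8 : F ^ K = F ^ (K - k m) * F ^ k m := by
      rw [← pow_add, Nat.sub_add_cancel (hkK m hm)]
    rw [Polynomial.eval_mul, Polynomial.eval_mul, Polynomial.eval_pow, Polynomial.eval_sub,
      Polynomial.eval_X, Polynomial.eval_one, Polynomial.eval_C, zero_sub, ← h7, h8]
    ring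
  rw [Finset.sum_congr rfl h12, ← Finset.mul_sum, h11] at h10
  have h13 : H * C (b.eval (-1)) = F * ∑ m ∈ P.support,
      ((-1) ^ m * (P m : Module.End ℂ (MvPolynomial σ ℂ)) 1) := by
    have : F ^ K * (H * C (b.eval (-1)) - F * ∑ m ∈ P.support,
      ((-1) ^ m * (P m : Module.End ℂ (MvPolynomial σ ℂ)) 1)) = 0 := by
      linear_combination h10
    exact sub_eq_zero.1 ((mul_eq_zero.1 this).resolve_left (pow_ne_zero K hF0))
  by_contra hne
  apply hF
  refine ⟨(∑ m ∈ P.support, ((-1) ^ m * (P m : Module.End ℂ (MvPolynomial σ ℂ)) 1)) *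
    C (b.eval (-1))⁻¹, ?_⟩
  rw [← mul_assoc, ← h13, mul_assoc, ← C_mul, mul_inv_cancel₀ hne, C_1, mul_one]

end Pool.Agent.W574.HS
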