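import Pool.Agent.W574.HS.Conv
import Pool.Agent.W574.HS.Minus
import Pool.Agent.W574.SM.PlaneMain

set_option autoImplicit false
set_option linter.unusedSectionVars false

/-! # The hypersurfaces `∑ y_j f_j(x) = 0` for `f_j ∈ ℂ[x_1, x_2]` -/

namespace Pool.Agent.W574.HS

open MvPolynomial Pool.Agent.W574.SM

/-- `Z` is (of the form of) the topological zeta function of the polynomial
`F = ∑ y_j f_j(x₁, x₂)` in the variables `x₁, x₂` and `y_j`, computed by blowing up points of the
plane: `Z = Z_I / (s + 1)`, where `Z_I` is computed by blowing up points, see `PlaneZeta`.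

If the composition `Y → ℂ ^ 2` of blow-ups of points is a log resolution of the ideal `I = (f_j)`,
then `Y × ℂ ^ ι → ℂ ^ 2 × ℂ ^ ι` is an embedded resolution of `F = 0`: locally on `Y` the ideal is
generated by one of the `f_j`, so that `F` is `f_j` times `y_j + ∑_{i ≠ j} g_i y_i` with regular
functions `g_i`, and the strict transform `H` of the generic part of `F = 0` (which is the zero
locus of the second factor) is smooth and crosses the `E × ℂ ^ ι` transversally. It contributes
the numbers `(1, 1)`, and over each point of `Y` the fibre of `H` is a hyperplane, with the Euler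
characteristic `1`, and the complement of the hyperplane has the Euler characteristic `0`. -/
def FormZeta {ι : Type} (f : ι → MvPolynomial (Fin 2) ℂ) (Z : RatFunc ℂ) : Prop :=
  ∃ Z' : RatFunc ℂ, PlaneZeta f Z' ∧ Z = Z' * (RatFunc.X + 1)⁻¹

theorem univ_ne_zero {ι σ : Type} [Fintype ι] [DecidableEq ι] (f : ι → MvPolynomial σ ℂ)
    (hf : ∃ j, f j ≠ 0) : univ f ≠ 0 := by
  classical
  obtain ⟨j, hj⟩ := hf
  intro h
  apply hj
  have h1 := congrArg (aeval (Sum.elim (fun i => if i = j then (1 : MvPolynomial σ ℂ) else 0) X))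
    h
  rw [univ, map_sum, map_zero, Finset.sum_eq_single j] at h1
  · rw [map_mul, aeval_X, Sum.elim_inl, if_pos rfl, one_mul, aeval_rename, Sum.elim_comp_inr] at h1
    simpa using h1
  · intro i _ hi
    rw [map_mul, aeval_X, Sum.elim_inl, if_neg hi, zero_mul]
  · intro h; exact absurd (Finset.mem_univ _) h

theorem univ_not_unit {ι σ : Type} [Fintype ι] [DecidableEq ι] (f : ι → MvPolynomial σ ℂ) :
    ¬ univ f ∣ 1 := by
  classical
  rintro ⟨g, hg⟩
  have h1 := congrArg (aeval (Sum.elim (fun _ => (0 : MvPolynomial σ ℂ)) X)) hg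
  rw [map_one, map_mul, univ, map_sum, Finset.sum_eq_zero, zero_mul] at h1
  · exact one_ne_zero h1
  · intro i _
    rw [map_mul, aeval_X, Sum.elim_inl, zero_mul]

theorem form_main {ι : Type} [Fintype ι] [DecidableEq ι] (f : ι → MvPolynomial (Fin 2) ℂ)
    (hf : ∃ j, f j ≠ 0) (b : Polynomial ℂ)
    (hb : Pool.Agent.H628R4.TP.IsBFunction (univ f) b) (Z : RatFunc ℂ) (hZ : FormZeta f Z)
    (s₀ : ℂ) (hs₀ : Z.denom.eval s₀ = 0) : b.eval s₀ = 0 := by
  classical
  obtain ⟨Z', hZ', rfl⟩ := hZ
  have h1 : (Z' * (RatFunc.X + 1)⁻¹).denom ∣ Z'.denom * (Polynomial.X + 1) := by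
    refine (RatFunc.denom_mul_dvd _ _).trans (mul_dvd_mul_left _ ?_)
    have h2 : (RatFunc.X + 1 : RatFunc ℂ)⁻¹ = algebraMap (Polynomial ℂ) (RatFunc ℂ) 1 /
        algebraMap (Polynomial ℂ) (RatFunc ℂ) (Polynomial.X + 1) := by
      rw [map_one, one_div, map_add, RatFunc.algebraMap_X, map_one]
    rw [h2]
    exact RatFunc.denom_div_dvd _ _
  have h3 : (Z'.denom * (Polynomial.X + 1)).eval s₀ = 0 :=
    Polynomial.eval_eq_zero_of_dvd_of_eval_eq_zero h1 hs₀
  rw [Polynomial.eval_mul, mul_eq_zero] at h3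
  rcases h3 with h3 | h3
  · exact plane_main f b (functionalEq_of_univ f b hb) Z' hZ' s₀ h3
  · have h4 : s₀ = -1 := by
      simp only [Polynomial.eval_add, Polynomial.eval_X, Polynomial.eval_one] at h3
      linear_combination h3
    obtain ⟨P, hP⟩ := hb
    rw [h4]
    refine minus_one (univ f) 1 (univ_ne_zero f hf) (univ_not_unit f) b P fun s => ?_
    rw [one_mul]
    exact hP s

end Pool.Agent.W574.HS
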