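import Pool.Agent.W574.HS.Minus
import Pool.Agent.H628R4.TP.LocDefs

set_option autoImplicit false
set_option linter.unusedSectionVars false

/-! # From formal power series coefficients to the algebraic local ring -/

namespace Pool.Agent.W574.HS

open MvPolynomial Pool.Agent.H628R4.TP

section Flat

variable {σ : Type} [Finite σ]

theorem cc_of_mem (r : MvPolynomial σ ℂ) (h : r ∈ idealOfVars σ ℂ) : constantCoeff r = 0 := by
  have h1 : r ∈ idealOfVars σ ℂ ^ 1 := by rwa [pow_one]
  rw [mem_pow_idealOfVars_iff'] at h1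
  exact h1 0 (by simp)

/-- **Faithful flatness of the completion** (Krull's intersection theorem). -/
theorem flat {L : Type} [Fintype L] {D : ℕ} (h : Fin D → MvPolynomial σ ℂ)
    (g : L → Fin D → MvPolynomial σ ℂ) (a : L → MvPowerSeries σ ℂ)
    (hh : ∀ d, (h d : MvPowerSeries σ ℂ) = ∑ i, a i * (g i d : MvPowerSeries σ ℂ)) :
    ∃ (H : MvPolynomial σ ℂ) (c : L → MvPolynomial σ ℂ), constantCoeff H ≠ 0 ∧
      ∀ d, H * h d = ∑ i, c i * g i d := by
  classical
  set N : Submodule (MvPolynomial σ ℂ) (Fin D → MvPolynomial σ ℂ) :=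
    Submodule.span (MvPolynomial σ ℂ) (Set.range g) with hN
  have hx : N.mkQ h ∈ (⨅ i : ℕ, idealOfVars σ ℂ ^ i • ⊤ :
      Submodule (MvPolynomial σ ℂ) ((Fin D → MvPolynomial σ ℂ) ⧸ N)) := by
    rw [Submodule.mem_iInf]
    intro n
    set p : L → MvPolynomial σ ℂ := fun i => MvPowerSeries.truncTotal n (a i) with hp
    have h1 : ∀ d, h d - ∑ i, p i * g i d ∈ idealOfVars σ ℂ ^ n := by
      intro d
      rw [mem_pow_idealOfVars_iff']
      intro x hx
      rw [coeff_sub, sub_eq_zero, ← coeff_coe, hh, map_sum, coeff_sum]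
      refine Finset.sum_congr rfl fun i _ => ?_
      rw [← MvPowerSeries.coeff_truncTotal_mul_truncTotal_eq_coeff_mul (a i) _ hx, coeff_mul,
        coeff_mul]
      refine Finset.sum_congr rfl fun y hy => ?_
      have hy2 : Finsupp.degree y.2 < n := by
        rw [Finset.HasAntidiagonal.mem_antidiagonal] at hy
        have := congrArg Finsupp.degree hy
        rw [map_add] at this
        omega
      rw [MvPowerSeries.coeff_truncTotal _ hy2, coeff_coe]
    have h2 : h - ∑ i, p i • g i ∈ (idealOfVars σ ℂ ^ n • ⊤ :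
        Submodule (MvPolynomial σ ℂ) (Fin D → MvPolynomial σ ℂ)) := by
      have h3 : h - ∑ i, p i • g i = ∑ d, (h d - ∑ i, p i * g i d) • (Pi.single d 1 :
          Fin D → MvPolynomial σ ℂ) := by
        funext e
        rw [Finset.sum_apply, Finset.sum_eq_single e]
        · simp
        · intro d _ hd; simp [Pi.single_eq_of_ne hd.symm]
        · intro he; exact absurd (Finset.mem_univ e) he
      rw [h3]
      exact Submodule.sum_mem _ fun d _ => Submodule.smul_mem_smul (h1 d) Submodule.mem_top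
    have h4 : N.mkQ h = N.mkQ (h - ∑ i, p i • g i) := by
      rw [map_sub, eq_comm, sub_eq_self, Submodule.mkQ_apply, Submodule.Quotient.mk_eq_zero]
      exact Submodule.sum_mem _ fun i _ => Submodule.smul_mem _ _
        (Submodule.subset_span (Set.mem_range_self i))
    rw [h4]
    have h5 := Submodule.mem_map_of_mem (f := N.mkQ) h2
    rw [Submodule.map_smul''] at h5
    exact Submodule.smul_mono le_rfl le_top h5
  rw [Ideal.mem_iInf_smul_pow_eq_bot_iff] at hx
  obtain ⟨r, hr⟩ := hx
  have h6 : (1 - (r : MvPolynomial σ ℂ)) • h ∈ N := by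
    rw [← Submodule.Quotient.mk_eq_zero, ← Submodule.mkQ_apply, map_smul, sub_smul, one_smul, hr,
      sub_self]
  rw [hN, Submodule.mem_span_range_iff_exists_fun] at h6
  obtain ⟨c, hc⟩ := h6
  refine ⟨1 - r, c, ?_, ?_⟩
  · rw [map_sub, map_one, cc_of_mem _ r.2, sub_zero]
    exact one_ne_zero
  · intro d
    have h7 := congrFun hc d
    rw [Finset.sum_apply] at h7
    simp only [Pi.smul_apply, smul_eq_mul] at h7
    exact h7.symm

/-- multiplication by a polynomial is in the Weyl algebra -/
theorem mulLeft_mem (q : MvPolynomial σ ℂ) :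
    LinearMap.mulLeft ℂ q ∈ weylS σ := by
  induction q using MvPolynomial.induction_on with
  | C a =>
    have : LinearMap.mulLeft ℂ (C a : MvPolynomial σ ℂ)
        = algebraMap ℂ (Module.End ℂ (MvPolynomial σ ℂ)) a := by
      refine LinearMap.ext fun x => ?_
      rw [LinearMap.mulLeft_apply, C_mul']
      rfl
    rw [this]
    exact Subalgebra.algebraMap_mem _ _
  | add p q hp hq =>
    have : LinearMap.mulLeft ℂ (p + q) = LinearMap.mulLeft ℂ p + LinearMap.mulLeft ℂ q := by
      refine LinearMap.ext fun x => ?_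
      rw [LinearMap.add_apply, LinearMap.mulLeft_apply, LinearMap.mulLeft_apply,
        LinearMap.mulLeft_apply, add_mul]
    rw [this]
    exact Subalgebra.add_mem _ hp hq
  | mul_X p i hp =>
    have : LinearMap.mulLeft ℂ (p * X i) = LinearMap.mulLeft ℂ p * LinearMap.mulLeft ℂ (X i) := by
      refine LinearMap.ext fun x => ?_
      rw [Module.End.mul_apply, LinearMap.mulLeft_apply, LinearMap.mulLeft_apply,
        LinearMap.mulLeft_apply, mul_assoc]
    rw [this]
    exact Subalgebra.mul_mem _ hp (Algebra.subset_adjoin (Or.inl ⟨i, rfl⟩))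

theorem map_eval_coe (p : Polynomial (MvPolynomial σ ℂ)) (s : ℕ) :
    (p.map (MvPolynomial.coeToMvPowerSeries.ringHom : MvPolynomial σ ℂ →+* MvPowerSeries σ ℂ)).eval
      (s : MvPowerSeries σ ℂ)
      = ((p.eval (s : MvPolynomial σ ℂ) : MvPolynomial σ ℂ) : MvPowerSeries σ ℂ) := by
  rw [Polynomial.eval_map, ← map_natCast (MvPolynomial.coeToMvPowerSeries.ringHom :
    MvPolynomial σ ℂ →+* MvPowerSeries σ ℂ), Polynomial.eval₂_at_apply]
  rfl

theorem eval_map_C (b : Polynomial ℂ) (s : ℕ) :
    (b.map (C : ℂ →+* MvPolynomial σ ℂ)).eval (s : MvPolynomial σ ℂ) = C (b.eval (s : ℂ)) := by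
  have h4 : ((s : ℕ) : MvPolynomial σ ℂ) = C (s : ℂ) := by simp
  rw [h4, Polynomial.eval_map, Polynomial.eval₂_at_apply]

/-- **A functional equation with formal power series coefficients gives an algebraic one.** -/
theorem algebraic_of_local (F : MvPolynomial σ ℂ) (hF : F ≠ 0) (b : Polynomial ℂ)
    (hb : IsLocalBFunction F b) :
    ∃ (H : MvPolynomial σ ℂ) (P : ℕ →₀ weylS σ), constantCoeff H ≠ 0 ∧
      ∀ s : ℕ, H * (C (b.eval (s : ℂ)) * F ^ s) =
        P.sum fun m Q => ((s : ℂ) ^ m) • (Q : Module.End ℂ (MvPolynomial σ ℂ)) (F ^ (s + 1)) := by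
  classical
  obtain ⟨L, m, a, Q, hQ⟩ := hb
  have h1 : ∀ i : Fin L, Seq F fun n => (Q i : Module.End ℂ (MvPolynomial σ ℂ)) (F ^ n) := fun i =>
    act_pow F (Q i).1 (Q i).2 _ ⟨0, 1, fun n => by simp⟩
  choose k r hr using h1
  set K := ∑ i, k i with hK
  have hkK : ∀ i, k i ≤ K := fun i =>
    Finset.single_le_sum (f := k) (fun _ _ => Nat.zero_le _) (Finset.mem_univ i)
  have hFK : ∀ i, F ^ K = F ^ (K - k i) * F ^ k i := fun i => by
    rw [← pow_add, Nat.sub_add_cancel (hkK i)]
  set h : Polynomial (MvPolynomial σ ℂ) := Polynomial.C (F ^ K) * b.map C with hh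
  set g : Fin L → Polynomial (MvPolynomial σ ℂ) := fun i =>
    Polynomial.X ^ m i * (Polynomial.C (F ^ (K - k i)) * (r i).comp (Polynomial.X + 1) *
      Polynomial.C F) with hg
  have hhe : ∀ s : ℕ, h.eval (s : MvPolynomial σ ℂ) = F ^ K * C (b.eval (s : ℂ)) := by
    intro s
    rw [hh, Polynomial.eval_mul, Polynomial.eval_C, eval_map_C]
  have hge : ∀ i, ∀ s : ℕ, (g i).eval (s : MvPolynomial σ ℂ) * F ^ s =
      C ((s : ℂ) ^ m i) * (F ^ K * (Q i : Module.End ℂ (MvPolynomial σ ℂ)) (F ^ (s + 1))) := by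
    intro i s
    have h2 : F ^ k i * (Q i : Module.End ℂ (MvPolynomial σ ℂ)) (F ^ (s + 1)) =
      (r i).eval ((s + 1 : ℕ) : MvPolynomial σ ℂ) * F ^ (s + 1) := hr i (s + 1)
    rw [hg]
    simp only
    rw [Polynomial.eval_mul, Polynomial.eval_mul, Polynomial.eval_mul, Polynomial.eval_pow,
      Polynomial.eval_X, Polynomial.eval_C, Polynomial.eval_C, Polynomial.eval_comp,
      Polynomial.eval_add, Polynomial.eval_X, Polynomial.eval_one, hFK i, C_pow]
    have h4 : C (s : ℂ) = ((s : ℕ) : MvPolynomial σ ℂ) := by simp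
    rw [h4]
    push_cast at h2
    linear_combination -(s : MvPolynomial σ ℂ) ^ m i * F ^ (K - k i) * h2
  -- the identity of polynomials in `s` with power series coefficients
  set coe : MvPolynomial σ ℂ →+* MvPowerSeries σ ℂ := MvPolynomial.coeToMvPowerSeries.ringHom
    with hcoe
  have : IsDomain (MvPowerSeries σ ℂ) := NoZeroDivisors.to_isDomain _
  have : CharZero (MvPowerSeries σ ℂ) :=
    charZero_of_injective_algebraMap (algebraMap ℂ (MvPowerSeries σ ℂ)).injective
  have hpoly : h.map coe = ∑ i, Polynomial.C (a i) * (g i).map coe := by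
    apply Polynomial.eq_of_infinite_eval_eq
    refine Set.Infinite.mono ?_ (Set.infinite_range_of_injective
      (f := fun n : ℕ => (n : MvPowerSeries σ ℂ)) ?_)
    · rintro _ ⟨s, rfl⟩
      rw [Set.mem_ofPred_eq, map_eval_coe, Polynomial.eval_finsetSum]
      have hFs : ((F ^ s : MvPolynomial σ ℂ) : MvPowerSeries σ ℂ) ≠ 0 := by
        rw [Ne, MvPolynomial.coe_eq_zero_iff]
        exact pow_ne_zero s hF
      apply mul_right_cancel₀ hFs
      rw [← MvPolynomial.coe_mul, hhe, mul_assoc, MvPolynomial.coe_mul, MvPolynomial.coe_mul,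
        MvPolynomial.coe_C, hQ s, Finset.mul_sum, Finset.sum_mul]
      refine Finset.sum_congr rfl fun i _ => ?_
      rw [Polynomial.eval_mul, Polynomial.eval_C, map_eval_coe, mul_assoc (a i),
        ← MvPolynomial.coe_mul, hge, MvPolynomial.coe_mul, MvPolynomial.coe_mul,
        MvPolynomial.coe_C]
      ring
    · intro x y hxy
      exact Nat.cast_injective hxy
  -- the linear system
  set D : ℕ := h.natDegree + ∑ i, (g i).natDegree + 1 with hD
  obtain ⟨H, c, hH, hc⟩ := flat (D := D) (fun d => h.coeff d) (fun i d => (g i).coeff d) a (by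
    intro d
    have h2 := congrArg (fun p => Polynomial.coeff p (d : ℕ)) hpoly
    simp only [Polynomial.finsetSum_coeff, Polynomial.coeff_C_mul, Polynomial.coeff_map] at h2
    exact h2)
  have hcp : Polynomial.C H * h = ∑ i, Polynomial.C (c i) * g i := by
    ext1 d
    rw [Polynomial.coeff_C_mul, Polynomial.finsetSum_coeff]
    simp only [Polynomial.coeff_C_mul]
    by_cases hd : d < D
    · exact hc ⟨d, hd⟩
    · rw [Polynomial.coeff_eq_zero_of_natDegree_lt (by omega), mul_zero, eq_comm]
      refine Finset.sum_eq_zero fun i _ => ?_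
      have h3 : (g i).natDegree ≤ ∑ i, (g i).natDegree :=
        Finset.single_le_sum (f := fun i => (g i).natDegree) (fun _ _ => Nat.zero_le _)
          (Finset.mem_univ i)
      rw [Polynomial.coeff_eq_zero_of_natDegree_lt (by omega), mul_zero]
  refine ⟨H, ∑ i, Finsupp.single (m i) (⟨_, mulLeft_mem (c i)⟩ * Q i), hH, fun s => ?_⟩
  rw [← Finsupp.sum_finsetSum_index]
  · have h2 := congrArg (fun p => Polynomial.eval (s : MvPolynomial σ ℂ) p * F ^ s) hcp
    simp only [Polynomial.eval_mul, Polynomial.eval_C, Polynomial.eval_finsetSum, hhe,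
      Finset.sum_mul, mul_assoc, hge] at h2
    apply mul_left_cancel₀ (pow_ne_zero K hF)
    rw [Finset.mul_sum]
    rw [show F ^ K * (H * (C (Polynomial.eval (s : ℂ) b) * F ^ s)) =
      H * (F ^ K * (C (Polynomial.eval (s : ℂ) b) * F ^ s)) by ring, h2]
    refine Finset.sum_congr rfl fun i _ => ?_
    rw [Finsupp.sum_single_index]
    · change _ = F ^ K * ((s : ℂ) ^ m i • (c i *
        (Q i : Module.End ℂ (MvPolynomial σ ℂ)) (F ^ (s + 1))))
      rw [← C_mul']
      ring
    · change ((s : ℂ) ^ m i) • (0 : MvPolynomial σ ℂ) = 0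
      rw [smul_zero]
  · intro n
    change ((s : ℂ) ^ n) • (0 : MvPolynomial σ ℂ) = 0
    rw [smul_zero]
  · intro n Q1 Q2
    rw [← smul_add]
    rfl

end Flat

end Pool.Agent.W574.HS
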