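import Pool.Agent.W574.HS.ConvL
import Pool.Agent.W574.HS.Flat
import Pool.Agent.W574.HS.Form
import Pool.Agent.W574.LM.Node

set_option autoImplicit false
set_option linter.unusedSectionVars false

/-! # The germs `∑ y_j f_j(x) = 0` at the origin for `f_j ∈ ℂ[x_1, x_2]` -/

namespace Pool.Agent.W574.HS

open MvPolynomial Pool.Agent.W574.SM Pool.Agent.W574.LM Pool.Agent.H628R4.TP

/-- `Z` is the local topological zeta function at the origin of the polynomial
`F = ∑ y_j f_j(x₁, x₂)` in the variables `x₁, x₂` and `y_j`, computed by blowing up points of the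
plane: `Z = Z_{I, 0} / (s + 1)`, where `I = (f_j)` and `Z_{I, 0} = ∑_q ∏_{E ∋ q} 1 / (a_E s + ν_E)`
(integral over the points `q` over the origin of the plane, with respect to the Euler
characteristic) is computed by blowing up points, see `LocalZeta`.

If the composition `Y → ℂ ^ 2` of blow-ups of points is a log resolution of the ideal `I = (f_j)`,
then `Y × ℂ ^ ι → ℂ ^ 2 × ℂ ^ ι` is an embedded resolution of `F = 0`: locally on `Y` the ideal is
generated by one of the `f_j`, so that `F` is `f_j` times `y_j + ∑_{i ≠ j} g_i y_i` with regular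
functions `g_i`, and the zero locus `H` of the second factor is smooth and crosses the `E × ℂ ^ ι`
transversally. It contributes the numbers `(1, 1)`, and it contains all points over the origin,
which are the points `(q, 0)`, where `q` is over the origin of the plane. -/
def LocalFormZeta {ι : Type} (f : ι → MvPolynomial (Fin 2) ℂ) (Z : RatFunc ℂ) : Prop :=
  ∃ Z' : RatFunc ℂ, LocalZeta f 0 1 0 1 Z' ∧ Z = Z' * (RatFunc.X + 1)⁻¹

theorem cc_univ {ι σ : Type} [Fintype ι] [DecidableEq ι] (f : ι → MvPolynomial σ ℂ) :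
    constantCoeff (univ f) = 0 := by
  rw [univ, map_sum]
  refine Finset.sum_eq_zero fun j _ => ?_
  rw [map_mul, constantCoeff_X, zero_mul]

theorem cc_hat {ι σ : Type} [Fintype ι] [DecidableEq ι] (H : MvPolynomial (ι ⊕ σ) ℂ) :
    constantCoeff (hat H 0) = constantCoeff H := by
  rw [hat_zero]
  change constantCoeff (constantCoeff (sumAlgEquiv ℂ ι σ H)) = constantCoeff H
  induction H using MvPolynomial.induction_on with
  | C a => rw [sae_C, constantCoeff_C, constantCoeff_C, constantCoeff_C]
  | add p q hp hq => rw [map_add, map_add, map_add, hp, hq, map_add]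
  | mul_X p i hp =>
    rw [map_mul, map_mul, map_mul, hp, map_mul]
    rcases i with i | i
    · rw [sae_Xl]; simp
    · rw [sae_Xr]; simp

theorem local_form_main {ι : Type} [Fintype ι] [DecidableEq ι] (f : ι → MvPolynomial (Fin 2) ℂ)
    (hf : ∃ j, f j ≠ 0) (b : Polynomial ℂ) (hb : IsLocalBFunction (univ f) b) (Z : RatFunc ℂ)
    (hZ : LocalFormZeta f Z) (s₀ : ℂ) (hs₀ : Z.denom.eval s₀ = 0) : b.eval s₀ = 0 := by
  classical
  obtain ⟨H, P, hH, hP⟩ := algebraic_of_local (univ f) (univ_ne_zero f hf) b hb
  obtain ⟨Z', hZ', rfl⟩ := hZ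
  have h1 : (Z' * (RatFunc.X + 1)⁻¹).denom ∣ Z'.denom * (Polynomial.X + 1) := by
    refine (RatFunc.denom_mul_dvd _ _).trans (mul_dvd_mul_left _ ?_)
    have h2 : (RatFunc.X + 1 : RatFunc ℂ)⁻¹ = algebraMap (Polynomial ℂ) (RatFunc ℂ) 1 /
        algebraMap (Polynomial ℂ) (RatFunc ℂ) (Polynomial.X + 1) := by
      rw [map_one, one_div, map_add, RatFunc.algebraMap_X, map_one]
    rw [h2]
    exact RatFunc.denom_div_dvd _ _
  have h3 : (Z'.denom * (Polynomial.X + 1)).eval s₀ = 0 :=
    Polynomial.eval_eq_zero_of_dvd_of_eval_eq_zero h1 hs₀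
  rw [Polynomial.eval_mul, mul_eq_zero] at h3
  rcases h3 with h3 | h3
  · refine point_main f b (hat H 0) (locEq_of_univ f b H P hP) 0 ?_ Z' ?_ s₀ h3
    · rw [eval_zero, cc_hat]
      exact hH
    · have h5 : (fun j => translate 0 (f j)) = f := by
        funext j
        have h6 : (translate 0 : MvPolynomial (Fin 2) ℂ →ₐ[ℂ] MvPolynomial (Fin 2) ℂ)
            = AlgHom.id ℂ _ := by
          ext1 i
          change aeval (fun i => X i + C ((0 : Fin 2 → ℂ) i)) (X i : MvPolynomial (Fin 2) ℂ) = _
          rw [aeval_X]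
          simp
        rw [h6]
        rfl
      rw [h5]
      exact hZ'
  · have h4 : s₀ = -1 := by
      simp only [Polynomial.eval_add, Polynomial.eval_X, Polynomial.eval_one] at h3
      linear_combination h3
    rw [h4]
    refine minus_one (univ f) H (univ_ne_zero f hf) ?_ b P hP
    rintro ⟨G, rfl⟩
    rw [map_mul, cc_univ, zero_mul] at hH
    exact hH rfl

end Pool.Agent.W574.HS
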