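import Pool.Agent.W574.SM.Dmod
import Pool.Agent.H628R4.TP.Defs

set_option autoImplicit false
set_option linter.unusedSectionVars false

/-! # The functional equation of `∑ y_j f_j` gives a functional equation of the ideal `(f_j)` -/

namespace Pool.Agent.W574.HS

open MvPolynomial Pool.Agent.W574.SM

section Hat

variable {σ ι : Type} [Fintype ι] [DecidableEq ι]

/-- the normalized coefficient of `y ^ α` -/
noncomputable def hat (G : MvPolynomial (ι ⊕ σ) ℂ) (α : ι →₀ ℕ) : MvPolynomial σ ℂ :=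
  (mfact α : ℂ) • coeff α (sumAlgEquiv ℂ ι σ G)

theorem sae_Xl (j : ι) : sumAlgEquiv ℂ ι σ (X (Sum.inl j)) = X j := sumAlgEquiv_X_inl _ _ _ _

theorem sae_Xr (i : σ) : sumAlgEquiv ℂ ι σ (X (Sum.inr i)) = C (X i) := sumAlgEquiv_X_inr _ _ _ _

theorem sae_C (r : ℂ) : sumAlgEquiv ℂ ι σ (C r) = C (C r) := sumAlgEquiv_C_inl _ _ _ _

theorem hat_add (G H : MvPolynomial (ι ⊕ σ) ℂ) (α : ι →₀ ℕ) : hat (G + H) α = hat G α + hat H α := by
  rw [hat, map_add, coeff_add, smul_add]; rfl

theorem hat_C_mul (r : ℂ) (G : MvPolynomial (ι ⊕ σ) ℂ) (α : ι →₀ ℕ) :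
    hat (C r * G) α = r • hat G α := by
  rw [hat, map_mul, sae_C, coeff_C_mul, C_mul', smul_comm]; rfl

theorem hat_smul (r : ℂ) (G : MvPolynomial (ι ⊕ σ) ℂ) (α : ι →₀ ℕ) :
    hat (r • G) α = r • hat G α := by
  rw [← C_mul', hat_C_mul]

theorem hat_sum {K : Type} (s : Finset K) (G : K → MvPolynomial (ι ⊕ σ) ℂ) (α : ι →₀ ℕ) :
    hat (∑ k ∈ s, G k) α = ∑ k ∈ s, hat (G k) α := by
  classical
  induction s using Finset.induction_on with
  | empty => simp [hat]
  | insert k s hk ih => rw [Finset.sum_insert hk, Finset.sum_insert hk, hat_add, ih]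

theorem hat_Xr (i : σ) (G : MvPolynomial (ι ⊕ σ) ℂ) (α : ι →₀ ℕ) :
    hat (X (Sum.inr i) * G) α = X i * hat G α := by
  rw [hat, map_mul, sae_Xr, coeff_C_mul, hat, mul_smul_comm]

theorem hat_r (p : MvPolynomial σ ℂ) (G : MvPolynomial (ι ⊕ σ) ℂ) (α : ι →₀ ℕ) :
    hat (rename Sum.inr p * G) α = p * hat G α := by
  induction p using MvPolynomial.induction_on generalizing G with
  | C a => rw [rename_C, hat_C_mul, C_mul']
  | add p q hp hq => rw [map_add, add_mul, hat_add, hp, hq, add_mul]
  | mul_X p i hp => rw [map_mul, rename_X, mul_assoc, hp, hat_Xr, mul_assoc]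

theorem sub_add_single (α : ι →₀ ℕ) (j : ι) (h : α j ≠ 0) :
    (α - Finsupp.single j 1) + Finsupp.single j 1 = α := by
  rw [tsub_add_cancel_of_le]
  rw [Finsupp.single_le_iff]
  omega

theorem hat_Xl (j : ι) (G : MvPolynomial (ι ⊕ σ) ℂ) (α : ι →₀ ℕ) :
    hat (X (Sum.inl j) * G) α = (α j : ℂ) • hat G (α - Finsupp.single j 1) := by
  rw [hat, map_mul, sae_Xl, coeff_X_mul']
  by_cases h : α j = 0
  · rw [if_neg (by simpa using h), h]
    simp
  · rw [if_pos (by simpa using h), hat, smul_smul]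
    congr 1
    conv_lhs => rw [← sub_add_single α j h]
    rw [mfact_add_single]
    have : (α - Finsupp.single j 1 : ι →₀ ℕ) j + 1 = α j := by
      rw [Finsupp.tsub_apply, Finsupp.single_eq_same]; omega
    rw [this]
    push_cast
    ring

theorem sae_pderiv_inl (j : ι) (G : MvPolynomial (ι ⊕ σ) ℂ) :
    sumAlgEquiv ℂ ι σ (pderiv (Sum.inl j) G) = pderiv j (sumAlgEquiv ℂ ι σ G) := by
  classical
  induction G using MvPolynomial.induction_on with
  | C a => rw [pderiv_C, sae_C, pderiv_C, map_zero]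
  | add p q hp hq => rw [map_add, map_add, map_add, map_add, hp, hq]
  | mul_X p i hp =>
    rw [Derivation.leibniz, map_mul, Derivation.leibniz, map_add, smul_eq_mul, smul_eq_mul,
      smul_eq_mul, smul_eq_mul, map_mul, map_mul, hp]
    congr 2
    rcases i with i | i
    · rw [sae_Xl, pderiv_X, pderiv_X]
      by_cases h : i = j
      · subst h; simp
      · rw [Pi.single_eq_of_ne (fun h' => h (Sum.inl_injective h')), Pi.single_eq_of_ne h, map_zero]
    · rw [sae_Xr, pderiv_C, pderiv_X, Pi.single_eq_of_ne (by simp), map_zero]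

theorem sae_pderiv_inr [DecidableEq σ] (i : σ) (G : MvPolynomial (ι ⊕ σ) ℂ) :
    sumAlgEquiv ℂ ι σ (pderiv (Sum.inr i) G) = dcoef (pderiv i) (sumAlgEquiv ℂ ι σ G) := by
  induction G using MvPolynomial.induction_on with
  | C a =>
    rw [pderiv_C, sae_C, map_zero]
    have := dcoef_C_mul (κ := ι) (pderiv i : Derivation ℂ (MvPolynomial σ ℂ) (MvPolynomial σ ℂ))
      (C a) 1
    rw [mul_one, pderiv_C, C_0, zero_mul, zero_add] at this
    rw [this]
    have h1 : dcoef (κ := ι) (pderiv i : Derivation ℂ (MvPolynomial σ ℂ) (MvPolynomial σ ℂ)) 1 = 0 := by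
      have h2 : (1 : MvPolynomial ι (MvPolynomial σ ℂ)) = monomial 0 1 := rfl
      rw [h2, dcoef_monomial, Derivation.map_one_eq_zero, monomial_zero]
    rw [h1, mul_zero]
  | add p q hp hq => rw [map_add, map_add, map_add, dcoef_add, hp, hq]
  | mul_X p k hp =>
    rw [Derivation.leibniz, map_add, smul_eq_mul, smul_eq_mul, map_mul, map_mul, map_mul, hp]
    rcases k with k | k
    · rw [sae_Xl, pderiv_X, Pi.single_eq_of_ne (by simp), map_zero, mul_zero, zero_add,
        mul_comm (sumAlgEquiv ℂ ι σ p), dcoef_X_mul]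
    · have h1 : sumAlgEquiv ℂ ι σ (pderiv (Sum.inr i) (X (Sum.inr k))) =
          C (pderiv i (X k : MvPolynomial σ ℂ)) := by
        rw [pderiv_X, pderiv_X]
        by_cases h : k = i
        · subst h; simp
        · rw [Pi.single_eq_of_ne (fun h' => h (Sum.inr_injective h')), Pi.single_eq_of_ne h,
            map_zero, C_0]
      rw [sae_Xr, mul_comm (sumAlgEquiv ℂ ι σ p) (C (X k)), dcoef_C_mul, h1,
        mul_comm (sumAlgEquiv ℂ ι σ p)]

theorem hat_dl (j : ι) (G : MvPolynomial (ι ⊕ σ) ℂ) (α : ι →₀ ℕ) :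
    hat (pderiv (Sum.inl j) G) α = hat G (α + Finsupp.single j 1) := by
  rw [hat, sae_pderiv_inl, coeff_pderiv, hat, mfact_add_single]
  rw [Algebra.smul_def, Algebra.smul_def]
  simp only [algebraMap_eq]
  push_cast
  simp only [map_mul, map_add, map_natCast, map_one]
  ring

theorem hat_dr [DecidableEq σ] (i : σ) (G : MvPolynomial (ι ⊕ σ) ℂ) (α : ι →₀ ℕ) :
    hat (pderiv (Sum.inr i) G) α = pderiv i (hat G α) := by
  rw [hat, sae_pderiv_inr, coeff_dcoef, hat, Derivation.map_smul]

/-- the universal linear form of the `f_j` -/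
noncomputable def univ (f : ι → MvPolynomial σ ℂ) : MvPolynomial (ι ⊕ σ) ℂ :=
  ∑ j, X (Sum.inl j) * rename Sum.inr (f j)

theorem hat_one (α : ι →₀ ℕ) : hat (1 : MvPolynomial (ι ⊕ σ) ℂ) α = if α = 0 then 1 else 0 := by
  rw [hat, map_one, coeff_one]
  by_cases h : α = 0
  · subst h
    simp [mfact]
  · rw [if_neg h, if_neg (fun h' => h h'.symm), smul_zero]

theorem hat_univ_pow (f : ι → MvPolynomial σ ℂ) (n : ℕ) : ∀ α : ι →₀ ℕ,
    hat (univ f ^ n) α = if ∑ j, α j = n then (n.factorial : ℂ) • ∏ j, f j ^ α j else 0 := by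
  induction n with
  | zero =>
    intro α
    rw [pow_zero, hat_one]
    have h1 : (∑ j, α j = 0) ↔ α = 0 := by
      rw [Finset.sum_eq_zero_iff]
      constructor
      · intro h; ext j; simpa using h j (Finset.mem_univ j)
      · intro h; subst h; simp
    by_cases h : α = 0
    · rw [if_pos h, if_pos (h1.2 h), h]; simp
    · rw [if_neg h, if_neg (fun h' => h (h1.1 h'))]
  | succ n ih =>
    intro α
    rw [pow_succ', univ, Finset.sum_mul, hat_sum]
    have h1 : ∀ j, hat (X (Sum.inl j) * (rename Sum.inr) (f j) * univ f ^ n) α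
        = if ∑ k, α k = n + 1 then ((α j : ℂ) * n.factorial) • ∏ k, f k ^ α k else 0 := by
      intro j
      rw [mul_assoc, hat_Xl, hat_r, ih]
      by_cases h : α j = 0
      · rw [h]; simp
      · have h2 : ∑ k, α k = ∑ k, (α - Finsupp.single j 1 : ι →₀ ℕ) k + 1 := by
          conv_lhs => rw [← sub_add_single α j h]
          simp only [Finsupp.add_apply, Finset.sum_add_distrib]
          congr 1
          rw [Finset.sum_eq_single j]
          · simp
          · intro k _ hk; exact Finsupp.single_eq_of_ne hk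
          · simp
        rw [h2]
        simp only [Nat.add_right_cancel_iff]
        split_ifs with h3
        · have h4 : ∏ k, f k ^ α k = f j * ∏ k, f k ^ (α - Finsupp.single j 1 : ι →₀ ℕ) k := by
            conv_lhs => rw [← sub_add_single α j h]
            simp only [Finsupp.add_apply, pow_add, Finset.prod_mul_distrib]
            rw [mul_comm]
            congr 1
            rw [Finset.prod_eq_single j]
            · simp
            · intro k _ hk; rw [Finsupp.single_eq_of_ne hk, pow_zero]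
            · simp
          rw [h4, mul_smul_comm, smul_smul]
        · simp
    change ∑ j, hat (X (Sum.inl j) * (rename Sum.inr) (f j) * univ f ^ n) α = _
    rw [Finset.sum_congr rfl fun j _ => h1 j]
    split_ifs with h
    · rw [← Finset.sum_smul, ← Finset.sum_mul, Nat.factorial_succ]
      congr 1
      have : (∑ j, (α j : ℂ)) = ((n + 1 : ℕ) : ℂ) := by rw [← h]; push_cast; rfl
      rw [this]; push_cast; ring
    · simp

end Hat

end Pool.Agent.W574.HS
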