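import Pool.Agent.W574.HS.Must

set_option autoImplicit false
set_option linter.unusedSectionVars false

/-! # The functional equation of `∑ y_j f_j` gives a functional equation of the ideal `(f_j)` -/

namespace Pool.Agent.W574.HS

open MvPolynomial Pool.Agent.W574.SM

section Rep

variable {σ ι : Type} [Fintype ι] [DecidableEq ι]

/-- the shift of a multi-index (negative entries are truncated) -/
noncomputable def sh (α : ι →₀ ℕ) (c : ι → ℤ) : ι →₀ ℕ :=
  Finsupp.equivFunOnFinite.symm fun j => ((α j : ℤ) + c j).toNat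

theorem sh_apply (α : ι →₀ ℕ) (c : ι → ℤ) (j : ι) : sh α c j = ((α j : ℤ) + c j).toNat := rfl

/-- the falling factorials -/
def fall (c : ι → ℤ) (α : ι →₀ ℕ) : ℕ := ∏ j, (α j).descFactorial (-c j).toNat

/-- evaluation at a multi-index -/
noncomputable def evN (α : ι →₀ ℕ) (p : MvPolynomial ι ℂ) : ℂ := eval (fun j => (α j : ℂ)) p

/-- the operators on families of polynomials which come from differential operators -/
def Rep (E : ((ι →₀ ℕ) → MvPolynomial σ ℂ) → (ι →₀ ℕ) → MvPolynomial σ ℂ) : Prop :=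
  ∃ (κ : Type) (_ : Fintype κ) (c : κ → ι → ℤ) (p : κ → MvPolynomial ι ℂ) (R : κ → weyl σ),
    ∀ H α, E H α = ∑ k, (evN α (p k) * (fall (c k) α : ℂ)) •
      (R k : Module.End ℂ (MvPolynomial σ ℂ)) (H (sh α (c k)))

theorem rep_id : Rep (σ := σ) (ι := ι) (fun H α => H α) := by
  refine ⟨Unit, inferInstance, fun _ _ => 0, fun _ => 1, fun _ => 1, fun H α => ?_⟩
  have h1 : sh α (fun _ => 0) = α := by
    ext j; rw [sh_apply]; simp
  simp [evN, fall, h1]

theorem rep_add {E1 E2 : ((ι →₀ ℕ) → MvPolynomial σ ℂ) → (ι →₀ ℕ) → MvPolynomial σ ℂ}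
    (h1 : Rep E1) (h2 : Rep E2) : Rep (fun H α => E1 H α + E2 H α) := by
  obtain ⟨κ1, i1, c1, p1, R1, h1⟩ := h1
  obtain ⟨κ2, i2, c2, p2, R2, h2⟩ := h2
  refine ⟨κ1 ⊕ κ2, inferInstance, Sum.elim c1 c2, Sum.elim p1 p2, Sum.elim R1 R2, fun H α => ?_⟩
  change E1 H α + E2 H α = _
  rw [Fintype.sum_sum_type, h1, h2]
  rfl

theorem rep_zero : Rep (σ := σ) (ι := ι) (fun _ _ => 0) :=
  ⟨Empty, inferInstance, fun k => k.elim, fun k => k.elim, fun k => k.elim, fun H α => by simp⟩

theorem rep_sum {K : Type} (s : Finset K)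
    (E : K → ((ι →₀ ℕ) → MvPolynomial σ ℂ) → (ι →₀ ℕ) → MvPolynomial σ ℂ)
    (h : ∀ k ∈ s, Rep (E k)) : Rep (fun H α => ∑ k ∈ s, E k H α) := by
  classical
  induction s using Finset.induction_on with
  | empty => simpa using rep_zero
  | insert k s hk ih =>
    have := rep_add (h k (Finset.mem_insert_self k s))
      (ih fun l hl => h l (Finset.mem_insert_of_mem hl))
    simpa [Finset.sum_insert hk] using this

theorem rep_poly {E : ((ι →₀ ℕ) → MvPolynomial σ ℂ) → (ι →₀ ℕ) → MvPolynomial σ ℂ}
    (h : Rep E) (q : MvPolynomial ι ℂ) : Rep (fun H α => evN α q • E H α) := by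
  obtain ⟨κ, i, c, p, R, h⟩ := h
  refine ⟨κ, i, c, fun k => q * p k, R, fun H α => ?_⟩
  simp only [h, Finset.smul_sum, smul_smul]
  refine Finset.sum_congr rfl fun k _ => ?_
  congr 1
  simp only [evN, map_mul]
  ring

theorem rep_weyl {E : ((ι →₀ ℕ) → MvPolynomial σ ℂ) → (ι →₀ ℕ) → MvPolynomial σ ℂ}
    (h : Rep E) (Q : weyl σ) :
    Rep (fun H α => (Q : Module.End ℂ (MvPolynomial σ ℂ)) (E H α)) := by
  obtain ⟨κ, i, c, p, R, h⟩ := h
  refine ⟨κ, i, c, p, fun k => Q * R k, fun H α => ?_⟩
  simp only [h, map_sum, map_smul]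
  rfl

theorem prod_single_eq {M : Type} [CommMonoid M] (j : ι) (g h : ι → M)
    (hgh : ∀ k, k ≠ j → g k = h k) (u v : M) (huv : u * g j = v * h j) :
    u * ∏ k, g k = v * ∏ k, h k := by
  rw [← Finset.mul_prod_erase _ _ (Finset.mem_univ j), ← Finset.mul_prod_erase _ h
    (Finset.mem_univ j), ← mul_assoc, ← mul_assoc, huv,
    Finset.prod_congr rfl fun k hk => hgh k (Finset.ne_of_mem_erase hk)]

/-- the change of `c` at `j` -/
def bump (c : ι → ℤ) (j : ι) (e : ℤ) : ι → ℤ := Function.update c j (c j + e)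

theorem bump_same (c : ι → ℤ) (j : ι) (e : ℤ) : bump c j e j = c j + e := by
  rw [bump, Function.update_self]

theorem bump_ne (c : ι → ℤ) {j k : ι} (e : ℤ) (h : k ≠ j) : bump c j e k = c k := by
  rw [bump, Function.update_of_ne h]

theorem rep_y {E : ((ι →₀ ℕ) → MvPolynomial σ ℂ) → (ι →₀ ℕ) → MvPolynomial σ ℂ}
    (h : Rep E) (j : ι) :
    Rep (fun H α => (α j : ℂ) • E H (α - Finsupp.single j 1)) := by
  obtain ⟨κ, i, c, p, R, h⟩ := h
  refine ⟨κ, i, fun k => bump (c k) j (-1), fun k => aeval (fun l => X l - C (if l = j then 1 else 0))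
    (p k) * (if c k j ≤ 0 then 1 else X j), R, fun H α => ?_⟩
  simp only [h, Finset.smul_sum, smul_smul]
  refine Finset.sum_congr rfl fun k _ => ?_
  have hsub : ∀ l, (α - Finsupp.single j 1 : ι →₀ ℕ) l = if l = j then α j - 1 else α l := by
    intro l
    rw [Finsupp.tsub_apply]
    by_cases hl : l = j
    · subst hl; simp
    · rw [Finsupp.single_eq_of_ne hl]; simp [hl]
  by_cases hj : α j = 0
  · have h0 : ((if c k j ≤ 0 then (1 : MvPolynomial ι ℂ) else X j).eval fun l => (α l : ℂ)) *
        (fall (bump (c k) j (-1)) α : ℂ) = 0 := by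
      split_ifs with hc
      · have : fall (bump (c k) j (-1)) α = 0 := by
          refine Finset.prod_eq_zero (Finset.mem_univ j) ?_
          rw [hj, bump_same, Nat.descFactorial_eq_zero_iff_lt]
          omega
        rw [this]; simp
      · simp [hj]
    have h1 : evN α (aeval (fun l => X l - C (if l = j then 1 else 0))
        (p k) * (if c k j ≤ 0 then 1 else X j)) * (fall (bump (c k) j (-1)) α : ℂ) = 0 := by
      rw [evN, map_mul, mul_assoc, h0, mul_zero]
    rw [h1, hj]
    simp
  · have h1 : sh (α - Finsupp.single j 1) (c k) = sh α (bump (c k) j (-1)) := by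
      ext l
      rw [sh_apply, sh_apply, hsub]
      by_cases hl : l = j
      · subst hl
        rw [if_pos rfl, bump_same]
        congr 1
        have : ((α l - 1 : ℕ) : ℤ) = α l - 1 := by omega
        rw [this]; ring
      · rw [if_neg hl, bump_ne _ _ hl]
    rw [h1]
    congr 1
    have h2 : evN (α - Finsupp.single j 1) (p k) =
        evN α (aeval (fun l => X l - C (if l = j then 1 else 0)) (p k)) := by
      unfold evN
      rw [← MvPolynomial.coe_aeval_eq_eval, ← MvPolynomial.coe_aeval_eq_eval]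
      change _ = aeval _ (aeval _ _)
      rw [← AlgHom.comp_apply, comp_aeval]
      change aeval _ _ = _
      congr 2
      funext l
      rw [map_sub, aeval_X, aeval_C, hsub]
      by_cases hl : l = j
      · subst hl
        have : 1 ≤ α l := by omega
        simp [Nat.cast_sub this]
      · simp [hl]
    have h3 : ((α j : ℂ)) * (fall (c k) (α - Finsupp.single j 1) : ℂ) =
        (if c k j ≤ 0 then 1 else (α j : ℂ)) * (fall (bump (c k) j (-1)) α : ℂ) := by
      have : (α j) * (fall (c k) (α - Finsupp.single j 1)) =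
        (if c k j ≤ 0 then 1 else α j) * (fall (bump (c k) j (-1)) α) := by
        unfold fall
        apply prod_single_eq j
        · intro l hl
          rw [hsub, if_neg hl, bump_ne _ _ hl]
        · rw [hsub, if_pos rfl, bump_same]
          by_cases hc : c k j ≤ 0
          · rw [if_pos hc, one_mul]
            obtain ⟨a, ha⟩ : ∃ a, α j = a + 1 := ⟨α j - 1, by omega⟩
            have h4 : (-(c k j + -1)).toNat = (-c k j).toNat + 1 := by omega
            rw [h4, ha, Nat.succ_descFactorial_succ]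
            rfl
          · rw [if_neg hc]
            have h4 : (-(c k j + -1)).toNat = 0 := by omega
            have h5 : (-c k j).toNat = 0 := by omega
            rw [h4, h5]
            simp
      have h4 := congrArg (Nat.cast : ℕ → ℂ) this
      push_cast at h4
      exact h4
    have h5 : evN α (if c k j ≤ 0 then (1 : MvPolynomial ι ℂ) else X j)
        = (if c k j ≤ 0 then 1 else (α j : ℂ)) := by
      split_ifs <;> simp [evN]
    have h6 : evN α ((aeval (fun l => X l - C (if l = j then 1 else 0))) (p k) *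
        (if c k j ≤ 0 then 1 else X j)) = evN (α - Finsupp.single j 1) (p k) *
        (if c k j ≤ 0 then 1 else (α j : ℂ)) := by
      rw [h2, ← h5, evN, evN, evN, map_mul]
    rw [h6]
    linear_combination evN (α - Finsupp.single j 1) (p k) * h3

theorem rep_dy {E : ((ι →₀ ℕ) → MvPolynomial σ ℂ) → (ι →₀ ℕ) → MvPolynomial σ ℂ}
    (h : Rep E) (j : ι) :
    Rep (fun H α => E H (α + Finsupp.single j 1)) := by
  obtain ⟨κ, i, c, p, R, h⟩ := h
  refine ⟨κ, i, fun k => bump (c k) j 1, fun k => aeval (fun l => X l + C (if l = j then 1 else 0))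
    (p k) * (if 0 ≤ c k j then 1 else X j + 1), R, fun H α => ?_⟩
  simp only [h]
  refine Finset.sum_congr rfl fun k _ => ?_
  have hadd : ∀ l, (α + Finsupp.single j 1 : ι →₀ ℕ) l = if l = j then α j + 1 else α l := by
    intro l
    rw [Finsupp.add_apply]
    by_cases hl : l = j
    · subst hl; simp
    · rw [Finsupp.single_eq_of_ne hl]; simp [hl]
  have h1 : sh (α + Finsupp.single j 1) (c k) = sh α (bump (c k) j 1) := by
    ext l
    rw [sh_apply, sh_apply, hadd]
    by_cases hl : l = j
    · subst hl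
      rw [if_pos rfl, bump_same]
      congr 1
      push_cast
      ring
    · rw [if_neg hl, bump_ne _ _ hl]
  rw [h1]
  congr 1
  have h2 : evN (α + Finsupp.single j 1) (p k) =
      evN α (aeval (fun l => X l + C (if l = j then 1 else 0)) (p k)) := by
    unfold evN
    rw [← MvPolynomial.coe_aeval_eq_eval, ← MvPolynomial.coe_aeval_eq_eval]
    change _ = aeval _ (aeval _ _)
    rw [← AlgHom.comp_apply, comp_aeval]
    change aeval _ _ = _
    congr 2
    funext l
    rw [map_add, aeval_X, aeval_C, hadd]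
    by_cases hl : l = j
    · subst hl
      simp
    · simp [hl]
  have h3 : (fall (c k) (α + Finsupp.single j 1) : ℂ) =
      (if 0 ≤ c k j then 1 else (α j : ℂ) + 1) * (fall (bump (c k) j 1) α : ℂ) := by
    have : 1 * (fall (c k) (α + Finsupp.single j 1)) =
      (if 0 ≤ c k j then 1 else α j + 1) * (fall (bump (c k) j 1) α) := by
      unfold fall
      apply prod_single_eq j
      · intro l hl
        rw [hadd, if_neg hl, bump_ne _ _ hl]
      · rw [hadd, if_pos rfl, bump_same]
        by_cases hc : 0 ≤ c k j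
        · have h4 : (-(c k j + 1)).toNat = 0 := by omega
          have h5 : (-c k j).toNat = 0 := by omega
          rw [if_pos hc, h4, h5]
          simp
        · rw [if_neg hc, one_mul]
          have h4 : (-c k j).toNat = (-(c k j + 1)).toNat + 1 := by omega
          rw [h4, Nat.succ_descFactorial_succ]
    rw [one_mul] at this
    have h4 := congrArg (Nat.cast : ℕ → ℂ) this
    push_cast at h4
    exact h4
  have h5 : evN α (if 0 ≤ c k j then (1 : MvPolynomial ι ℂ) else X j + 1)
      = (if 0 ≤ c k j then 1 else (α j : ℂ) + 1) := by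
    split_ifs <;> simp [evN]
  have h6 : evN α ((aeval (fun l => X l + C (if l = j then 1 else 0))) (p k) *
      (if 0 ≤ c k j then 1 else X j + 1)) = evN (α + Finsupp.single j 1) (p k) *
      (if 0 ≤ c k j then 1 else (α j : ℂ) + 1) := by
    rw [h2, ← h5, evN, evN, evN, map_mul]
  rw [h6]
  linear_combination evN (α + Finsupp.single j 1) (p k) * h3

/-- the operators in the Weyl algebra of `(y, x)` act on the normalized coefficients through
operators in the class `Rep` -/
theorem rep_weylS [DecidableEq σ] (Q : Module.End ℂ (MvPolynomial (ι ⊕ σ) ℂ))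
    (hQ : Q ∈ Pool.Agent.H628R4.TP.weylS (ι ⊕ σ)) :
    ∀ E : ((ι →₀ ℕ) → MvPolynomial σ ℂ) → (ι →₀ ℕ) → MvPolynomial σ ℂ, Rep E →
      ∃ E', Rep E' ∧ ∀ (H : MvPolynomial (ι ⊕ σ) ℂ) (g : (ι →₀ ℕ) → MvPolynomial σ ℂ),
        hat H = E g → hat (Q H) = E' g := by
  induction hQ using Algebra.adjoin_induction with
  | mem Q hQ =>
    intro E hE
    rcases hQ with ⟨i | i, rfl⟩ | ⟨i | i, rfl⟩
    · refine ⟨_, rep_y hE i, fun H g hH => ?_⟩
      funext α
      rw [LinearMap.mulLeft_apply, hat_Xl, hH]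
    · refine ⟨_, rep_weyl hE ⟨_, Algebra.subset_adjoin (Or.inl ⟨i, rfl⟩)⟩, fun H g hH => ?_⟩
      funext α
      rw [LinearMap.mulLeft_apply, hat_Xr, hH]
      rfl
    · refine ⟨_, rep_dy hE i, fun H g hH => ?_⟩
      funext α
      rw [← hH]
      exact hat_dl i H α
    · refine ⟨_, rep_weyl hE ⟨_, Algebra.subset_adjoin (Or.inr ⟨i, rfl⟩)⟩, fun H g hH => ?_⟩
      funext α
      rw [← hH]
      exact hat_dr i H α
  | algebraMap r =>
    intro E hE
    refine ⟨_, rep_poly hE (C r), fun H g hH => ?_⟩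
    funext α
    rw [Module.algebraMap_end_apply, hat_smul, hH, evN, eval_C]
  | add Q1 Q2 _ _ h1 h2 =>
    intro E hE
    obtain ⟨E1, hE1, hF1⟩ := h1 E hE
    obtain ⟨E2, hE2, hF2⟩ := h2 E hE
    refine ⟨_, rep_add hE1 hE2, fun H g hH => ?_⟩
    funext α
    rw [LinearMap.add_apply, hat_add, hF1 H g hH, hF2 H g hH]
  | mul Q1 Q2 _ _ h1 h2 =>
    intro E hE
    obtain ⟨E2, hE2, hF2⟩ := h2 E hE
    obtain ⟨E1, hE1, hF1⟩ := h1 E2 hE2
    exact ⟨E1, hE1, fun H g hH => hF1 _ g (hF2 H g hH)⟩

end Rep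

end Pool.Agent.W574.HS
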